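import Pool.Agent.Y482.Ph.Defs
import Pool.Agent.W701.AX.Kxc
import Pool.Agent.W414.AX.Ext
import Pool.Agent.W303.AX.UX1
import Pool.Agent.W67.AX.UX2
import Pool.Agent.W637.AX.TC

/-! PH-KXC3: the kernel of three variables at complex points. -/

set_option autoImplicit false

namespace Pool.Agent.Y419.PH

open Finset Filter Topology Metric
open Pool.Agent.W711.HT Pool.Agent.W719.AX Pool.Agent.Y482.Ph Pool.Agent.Y472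
open Pool.Agent.W701.AX (Rc_open)
open scoped Real

theorem kxc3' (hUB : S_UXBD) (hE : S_EXT) (hUL : S_UXLOG) (hUE : S_UXEXP) (hUA : S_UXAN) : S_KXC3 := by
  intro hR hEMT hLog ρ₀ c C s dl hSD
  obtain ⟨ρ₁, hρ₁, hρ₁ρ, a, c₁, hc₁, hux, hnz⟩ := hR hEMT ρ₀ c C s dl hSD
  obtain ⟨ρ₂, C₀, L, hρ₂, hρ₂ρ, hL⟩ := hLog ρ₀ c C s dl hSD
  -- common radius
  obtain ⟨ρ, hρ, hρ1, hρ2⟩ : ∃ ρ : ℝ, 0 < ρ ∧ ρ ≤ ρ₁ ∧ ρ ≤ ρ₂ :=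
    ⟨min ρ₁ ρ₂, lt_min hρ₁ hρ₂, min_le_left _ _, min_le_right _ _⟩
  obtain ⟨ρ', τ', hρ', hρ'1, hτ', hτ'1, hExt⟩ := hE ρ ρ hρ hρ
  have hRl1 : ∀ z ∈ Rl ρ, z ∈ Rl ρ₁ := fun z hz => ⟨hz.1.trans_le hρ1, hz.2⟩
  have hRl : ∀ z ∈ Rl ρ, z ∈ Rc ρ₂ ρ₂ := by
    rintro z ⟨h1, h2⟩
    refine ⟨h1.trans_le hρ2, ?_⟩
    rw [h2, abs_zero]
    exact hρ₂
  have hRc1 : ∀ z ∈ Rc ρ ρ, z ∈ Rc ρ₂ ρ₂ := fun z hz => ⟨hz.1.trans_le hρ2, hz.2.trans_le hρ2⟩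
  have hRc' : ∀ z ∈ Rc ρ' τ', z ∈ Rc ρ₂ ρ₂ := fun z hz =>
    ⟨hz.1.trans_le (hρ'1.trans hρ2), hz.2.trans_le (hτ'1.trans hρ2)⟩
  -- the logarithm at real points
  have hux' : UX (kx3 s) a (Rl ρ ×ˢ Rl ρ ×ˢ Rl ρ) := by
    intro K
    obtain ⟨D, hD⟩ := hux K
    exact ⟨D, hD.mono fun N hN p hp => hN p ⟨hRl1 _ hp.1, hRl1 _ hp.2.1, hRl1 _ hp.2.2⟩⟩
  obtain ⟨B, hB⟩ := hUL (ℂ × ℂ × ℂ) (kx3 s) (fun N p => L N p.1 p.2.1 p.2.2) a (Rl ρ ×ˢ Rl ρ ×ˢ Rl ρ) c₁ hc₁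
    hux' (fun p hp => hnz p ⟨hRl1 _ hp.1, hRl1 _ hp.2.1, hRl1 _ hp.2.2⟩)
    (hL.mono fun N hN p hp => by
      obtain ⟨_, h2, h3⟩ := hN.2.2.2 p.1 (hRl _ hp.1) p.2.1 (hRl _ hp.2.1) p.2.2 (hRl _ hp.2.2)
      exact ⟨h3 hp.1.2 hp.2.1.2 hp.2.2.2, h2⟩)
  -- first variable
  obtain ⟨A1, hA1⟩ := hExt (ℂ × ℂ) (Rl ρ ×ˢ Rl ρ) (fun N z q => L N z q.1 q.2) B C₀
    (hL.mono fun N hN q hq =>
      ⟨(hN.1 q.1 (hRl _ hq.1) q.2 (hRl _ hq.2)).mono hRc1,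
        fun z hz => (hN.2.2.2 z (hRc1 _ hz) q.1 (hRl _ hq.1) q.2 (hRl _ hq.2)).1⟩) hB
  -- second variable
  have hA1' := Pool.Agent.W701.AX.UX.comp hA1 (fun x : ℂ × ℂ × ℂ => (x.2.1, (x.1, x.2.2)))
    (S' := Rl ρ ×ˢ Rc ρ' τ' ×ˢ Rl ρ) (fun p hp => ⟨hp.2.1, hp.1, hp.2.2⟩)
  obtain ⟨A2, hA2⟩ := hExt (ℂ × ℂ) (Rc ρ' τ' ×ˢ Rl ρ) (fun N z q => L N q.1 z q.2)
    (fun k x => A1 k (x.2.1, (x.1, x.2.2))) C₀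
    (hL.mono fun N hN q hq =>
      ⟨(hN.2.1 q.1 (hRc' _ hq.1) q.2 (hRl _ hq.2)).mono hRc1,
        fun z hz => (hN.2.2.2 q.1 (hRc' _ hq.1) z (hRc1 _ hz) q.2 (hRl _ hq.2)).1⟩)
    hA1'
  -- third variable
  have hA2' := Pool.Agent.W701.AX.UX.comp hA2 (fun x : ℂ × ℂ × ℂ => (x.2.2, (x.2.1, x.1)))
    (S' := Rl ρ ×ˢ Rc ρ' τ' ×ˢ Rc ρ' τ') (fun p hp => ⟨hp.2.2, hp.2.1, hp.1⟩)
  obtain ⟨A3, hA3⟩ := hExt (ℂ × ℂ) (Rc ρ' τ' ×ˢ Rc ρ' τ') (fun N z q => L N q.1 q.2 z)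
    (fun k x => A2 k (x.2.2, (x.2.1, x.1))) C₀
    (hL.mono fun N hN q hq =>
      ⟨(hN.2.2.1 q.1 (hRc' _ hq.1) q.2 (hRc' _ hq.2)).mono hRc1,
        fun z hz => (hN.2.2.2 q.1 (hRc' _ hq.1) q.2 (hRc' _ hq.2) z (hRc1 _ hz)).1⟩)
    hA2'
  set r : ℝ := min ρ' τ' with hr
  have hr0 : 0 < r := lt_min hρ' hτ'
  have hrr : ∀ z ∈ Rc r r, z ∈ Rc ρ' τ' := fun z hz =>
    ⟨hz.1.trans_le (min_le_left _ _), hz.2.trans_le (min_le_right _ _)⟩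
  have hr2 : ∀ z ∈ Rc r r, z ∈ Rc ρ₂ ρ₂ := fun z hz => hRc' z (hrr z hz)
  have hA3' := Pool.Agent.W701.AX.UX.comp hA3 (fun x : ℂ × ℂ × ℂ => (x.2.2, (x.1, x.2.1)))
    (S' := Rc r r ×ˢ Rc r r ×ˢ Rc r r) (fun p hp => ⟨hrr _ hp.2.2, hrr _ hp.1, hrr _ hp.2.1⟩)
  obtain ⟨D, hD1, hD2⟩ := hUE _ _ _ _ hA3'
  have hK : UX (kx3 s) D (Rc r r ×ˢ Rc r r ×ˢ Rc r r) := by
    refine Pool.Agent.W701.AX.UX.congr hD1 (hL.mono fun N hN p hp => ?_)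
    exact (hN.2.2.2 p.1 (hr2 _ hp.1) p.2.1 (hr2 _ hp.2.1) p.2.2 (hr2 _ hp.2.2)).2.1
  have hsub : Rc r r ⊆ Rc ρ₂ ρ₂ := hr2
  refine ⟨r, D, ((min_le_left _ _).trans (hρ'1.trans hρ2)).trans hρ₂ρ, hr0, hK, ?_, ?_, ?_, ?_⟩
  · intro k y hy z hz
    refine hUA (fun N x => kx3 s N (x, y, z)) (fun k x => D k (x, y, z)) (Rc r r) (Rc_open _ _) ?_
      (Pool.Agent.W701.AX.UX.comp hK (fun x => (x, y, z)) fun x hx => ⟨hx, hy, hz⟩) k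
    refine hL.mono fun N hN => ?_
    have h1 : DifferentiableOn ℂ (fun x => Complex.exp (L N x y z)) (Rc r r) :=
      ((hN.1 y (hr2 _ hy) z (hr2 _ hz)).mono hsub).cexp
    exact h1.congr fun x hx => ((hN.2.2.2 x (hr2 _ hx) y (hr2 _ hy) z (hr2 _ hz)).2.1).symm
  · intro k x hx z hz
    refine hUA (fun N y => kx3 s N (x, y, z)) (fun k y => D k (x, y, z)) (Rc r r) (Rc_open _ _) ?_
      (Pool.Agent.W701.AX.UX.comp hK (fun y => (x, y, z)) fun y hy => ⟨hx, hy, hz⟩) k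
    refine hL.mono fun N hN => ?_
    have h1 : DifferentiableOn ℂ (fun y => Complex.exp (L N x y z)) (Rc r r) :=
      ((hN.2.1 x (hr2 _ hx) z (hr2 _ hz)).mono hsub).cexp
    exact h1.congr fun y hy => ((hN.2.2.2 x (hr2 _ hx) y (hr2 _ hy) z (hr2 _ hz)).2.1).symm
  · intro k x hx y hy
    refine hUA (fun N z => kx3 s N (x, y, z)) (fun k z => D k (x, y, z)) (Rc r r) (Rc_open _ _) ?_
      (Pool.Agent.W701.AX.UX.comp hK (fun z => (x, y, z)) fun z hz => ⟨hx, hy, hz⟩) k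
    refine hL.mono fun N hN => ?_
    have h1 : DifferentiableOn ℂ (fun z => Complex.exp (L N x y z)) (Rc r r) :=
      ((hN.2.2.1 x (hr2 _ hx) y (hr2 _ hy)).mono hsub).cexp
    exact h1.congr fun z hz => ((hN.2.2.2 x (hr2 _ hx) y (hr2 _ hy) z (hr2 _ hz)).2.1).symm
  · obtain ⟨M, hM⟩ := hUB _ _ _ _ hA3' 0
    refine ⟨Real.exp (-M), Real.exp_pos _, fun x hx => ?_⟩
    rw [hD2, Complex.norm_exp]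
    apply Real.exp_le_exp.2
    have h1 := (Complex.abs_re_le_norm _).trans (hM x hx)
    exact (abs_le.1 h1).1

theorem kxc3 : S_KXC3 :=
  kxc3' W303.AX.uxbd (W414.AX.ext W637.AX.tc) (W67.AX.uxlog W303.AX.uxbd W303.AX.uxmul)
    (W67.AX.uxexp W303.AX.uxbd W303.AX.uxmul) W303.AX.uxan

end Pool.Agent.Y419.PH
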