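import Mathlib

/-! # An abstract Baire lemma -/

set_option autoImplicit false

open Set Filter Topology TopologicalSpace

namespace Pool.Agent.Y419.PH

theorem baa (H Q : Type) [TopologicalSpace H] [CompactSpace H] [T2Space H] [Nonempty H]
    [TopologicalSpace Q] [BaireSpace Q] [SecondCountableTopology Q] [T1Space Q] [Nonempty Q]
    (A : ℕ → Set (H × Q)) (hA : ∀ m, IsClosed (A m))
    (hc : ∀ h : H, {q : Q | ∀ m, (h, q) ∉ A m}.Countable) :
    (∃ q : Q, IsOpen ({q} : Set Q)) ∨
      ∃ (m : ℕ) (V : Set H) (W : Set Q), IsOpen V ∧ V.Nonempty ∧ IsOpen W ∧ W.Nonempty ∧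
        V ×ˢ W ⊆ A m := by
  by_contra hcon
  push Not at hcon
  obtain ⟨hq, hVW⟩ := hcon
  obtain ⟨S, hS⟩ : ∃ S : ℕ → Set Q → Set H, S = fun m W => {h | ∀ q ∈ W, (h, q) ∈ A m} := ⟨_, rfl⟩
  have hScl : ∀ m W, IsClosed (S m W) := by
    intro m W
    have e : S m W = ⋂ q ∈ W, (fun h : H => (h, q)) ⁻¹' A m := by
      rw [hS]
      ext h
      simp
    rw [e]
    exact isClosed_biInter fun q _ => (hA m).preimage (by fun_prop)
  have hSint : ∀ m, ∀ W ∈ countableBasis Q, interior (S m W) = ∅ := by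
    intro m W hW
    by_contra hne
    rw [← Ne, ← nonempty_iff_ne_empty] at hne
    refine hVW m (interior (S m W)) W isOpen_interior hne
      ((isBasis_countableBasis Q).isOpen hW) (nonempty_of_mem_countableBasis hW) ?_
    rintro ⟨h, q⟩ ⟨h1, h2⟩
    have h3 : h ∈ S m W := interior_subset h1
    rw [hS] at h3
    exact h3 q h2
  have hcb : Countable (countableBasis Q) := (countable_countableBasis Q).to_subtype
  have hdense : Dense (⋂ i : ℕ × countableBasis Q, (S i.1 i.2)ᶜ) := by
    refine dense_iInter_of_isOpen (fun i => (hScl _ _).isOpen_compl) fun i => ?_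
    rw [← interior_eq_empty_iff_dense_compl]
    exact hSint _ _ i.2.2
  obtain ⟨h, hh⟩ := hdense.nonempty
  rw [mem_iInter] at hh
  obtain ⟨C, hC⟩ : ∃ C : ℕ → Set Q, C = fun m => {q | (h, q) ∈ A m} := ⟨_, rfl⟩
  have hCcl : ∀ m, IsClosed (C m) := by
    intro m
    rw [hC]
    exact (hA m).preimage (f := fun q : Q => (h, q)) (by fun_prop)
  have hCint : ∀ m, interior (C m) = ∅ := by
    intro m
    by_contra hne
    rw [← Ne, ← nonempty_iff_ne_empty] at hne
    obtain ⟨q, hq⟩ := hne
    obtain ⟨W, hW, hqW, hWC⟩ := (isBasis_countableBasis Q).exists_subset_of_mem_open hq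
      isOpen_interior
    refine hh (m, ⟨W, hW⟩) ?_
    show h ∈ S m W
    rw [hS]
    intro q' hq'
    have h1 : q' ∈ C m := interior_subset (hWC hq')
    rw [hC] at h1
    exact h1
  obtain ⟨Z, hZ⟩ : ∃ Z : Set Q, Z = {q : Q | ∀ m, (h, q) ∉ A m} := ⟨_, rfl⟩
  have hZc : Countable Z := by
    rw [hZ]
    exact (hc h).to_subtype
  obtain ⟨f, hf⟩ : ∃ f : ℕ ⊕ Z → Set Q, 
      f = Sum.elim C (fun q : Z => ({(q : Q)} : Set Q)) := ⟨_, rfl⟩
  have hU : ⋃ i, f i = univ := by
    rw [eq_univ_iff_forall]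
    intro q
    rw [mem_iUnion]
    by_cases hqZ : q ∈ Z
    · refine ⟨Sum.inr ⟨q, hqZ⟩, ?_⟩
      rw [hf]
      exact mem_singleton q
    · rw [hZ] at hqZ
      simp only [mem_ofPred_eq, not_forall, not_not] at hqZ
      obtain ⟨m, hm⟩ := hqZ
      refine ⟨Sum.inl m, ?_⟩
      rw [hf, hC]
      exact hm
  obtain ⟨i, hi⟩ := nonempty_interior_of_iUnion_of_closed (f := f) (fun i => by
    rcases i with m | q
    · rw [hf]
      exact hCcl m
    · rw [hf]
      exact isClosed_singleton) hU
  rcases i with m | q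
  · rw [hf] at hi
    have h1 : (interior (C m)).Nonempty := hi
    rw [hCint m] at h1
    exact not_nonempty_empty h1
  · rw [hf] at hi
    have h1 : (interior ({(q : Q)} : Set Q)).Nonempty := hi
    have h2 : interior ({(q : Q)} : Set Q) = {(q : Q)} := by
      rcases subset_singleton_iff_eq.1 (interior_subset (s := ({(q : Q)} : Set Q))) with h3 | h3
      · rw [h3] at h1
        exact absurd h1 not_nonempty_empty
      · exact h3
    exact hq q (by
      rw [← h2]
      exact isOpen_interior)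

end Pool.Agent.Y419.PH
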