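import Pool.Agent.Y489.PH.Stm2
import Pool.Agent.Y419.PH.BAACore

/-! # Project PH: the abstract Baire lemma -/

set_option autoImplicit false

namespace Pool.Agent.Y419.PH

open Pool.Agent.Y489.PH

theorem t_BAA : S_BAA := by
  intro H Q _ _ _ _ _ _ _ _ _ A hA hc
  exact baa H Q A hA hc

end Pool.Agent.Y419.PH
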