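import Pool.Agent.Y489.PH.Stm2

/-! # Project PH: almost every point has only nondegenerate preimages -/

set_option autoImplicit false

open MeasureTheory Set Metric Filter Topology
open scoped ENNReal NNReal

namespace Pool.Agent.Y419.PH

open Pool.Agent.Y485.HS Pool.Agent.Y489.PH

theorem exists_AM {n : ℕ} {F : E n → E n} {x : E n} (hx : x ∈ ball (0 : E n) 3) (h : PL F x) :
    ∃ m, x ∈ AM n F m := by
  obtain ⟨N, δ, hδ, h1⟩ := h
  obtain ⟨m, hm⟩ := exists_nat_gt (max N (1 / δ))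
  have hm1 : N < m := (le_max_left _ _).trans_lt hm
  have hm2 : 1 / δ < m := (le_max_right _ _).trans_lt hm
  refine ⟨m, ball_subset_closedBall hx, fun z hz hzx => ?_⟩
  have h2 : 1 / ((m : ℝ) + 1) < δ := by
    rw [div_lt_iff₀ hδ] at hm2
    rw [div_lt_iff₀ (by positivity)]
    nlinarith
  refine (h1 z hz (hzx.trans h2)).trans ?_
  exact mul_le_mul_of_nonneg_right hm1.le dist_nonneg

theorem t_GEN : S_STP → S_GEN := by
  intro hstp n hn F hF hPL
  have : Nonempty (Fin n) := ⟨⟨0, hn⟩⟩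
  have : Nontrivial (E n) := inferInstance
  obtain ⟨C, hC⟩ : ∃ C : Set (E n), C = {x : E n | x ∈ ball (0 : E n) 4 ∧ ¬ PL F x} := ⟨_, rfl⟩
  have hCc : C.Countable := by
    rw [hC]
    exact hPL
  have m1 : volume (F '' C) = 0 := (hCc.image F).measure_zero _
  have m2 : ∀ m, volume (F '' {x | x ∈ AM n F m ∧ ¬ DifferentiableAt ℝ F x}) = 0 := fun m =>
    (hstp n F hF m).2.2 _ (fun x hx => hx.1) (hstp n F hF m).2.1
  have m3 : ∀ m, volume (F '' {x | x ∈ AM n F m ∧ DifferentiableAt ℝ F x ∧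
      (fderiv ℝ F x).det = 0}) = 0 := by
    intro m
    refine addHaar_image_eq_zero_of_det_fderivWithin_eq_zero volume (f' := fderiv ℝ F)
      (fun x hx => hx.2.1.hasFDerivAt.hasFDerivWithinAt) fun x hx => hx.2.2
  have m4 : volume (F '' C ∪ ((⋃ m, F '' {x | x ∈ AM n F m ∧ ¬ DifferentiableAt ℝ F x}) ∪
      ⋃ m, F '' {x | x ∈ AM n F m ∧ DifferentiableAt ℝ F x ∧ (fderiv ℝ F x).det = 0})) = 0 := by
    rw [measure_union_null_iff, measure_union_null_iff, measure_iUnion_null_iff,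
      measure_iUnion_null_iff]
    exact ⟨m1, m2, m3⟩
  rw [ae_iff]
  refine measure_mono_null ?_ m4
  intro y hy
  by_contra hcon
  apply hy
  intro x hx hxy
  simp only [mem_union, mem_iUnion, not_or, not_exists] at hcon
  obtain ⟨c1, c2, c3⟩ := hcon
  have hxPL : PL F x := by
    by_contra hne
    refine c1 ⟨x, ?_, hxy⟩
    rw [hC]
    exact ⟨ball_subset_ball (by norm_num) hx, hne⟩
  obtain ⟨m, hm⟩ := exists_AM hx hxPL
  have hd : DifferentiableAt ℝ F x := by
    by_contra hne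
    exact c2 m ⟨x, ⟨hm, hne⟩, hxy⟩
  refine ⟨fderiv ℝ F x, hd.hasFDerivAt, fun h0 => ?_⟩
  exact c3 m ⟨x, ⟨hm, hd, h0⟩, hxy⟩

end Pool.Agent.Y419.PH
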